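import Pool.Agent.H2Q.Sym

/-!
# Degree bounds in graphs with an abelian group of symmetries and no cube
-/

set_option autoImplicit false

namespace H2Q

open SimpleGraph MulAction

variable {V : Type*} (G : SimpleGraph V) {Γ : Type*} [CommGroup Γ] [Fintype Γ] [MulAction Γ V]
  {ε : ℤ}

open scoped Classical in
/-- Bound for two different orbits in terms of the join of the stabilizers. -/
theorem bd_diff (hε : ε = 1 ∨ ε = -1)
    (hG : ∀ (g : Γ) (u v : V), G.Adj u v → G.Adj (g • u) (g ^ ε • v)) (hfree : ¬ cube ⊑ G)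
    (o w : V) (hw : w ∉ orbit Γ o) :
    (Finset.univ.filter (fun γ : Γ => G.Adj o (γ • w))).card ^ 2
      ≤ 4 * Nat.card (stabilizer Γ o ⊔ stabilizer Γ w : Subgroup Γ) * Fintype.card Γ := by
  by_contra hcon
  push Not at hcon
  obtain ⟨s, p, q, r, hp, hq, hr, hp', hq', hr', e1, e2, e3, e4, e5, e6, -⟩ :=
    select (stabilizer Γ o ⊔ stabilizer Γ w) (Finset.univ.filter (fun γ : Γ => G.Adj o (γ • w)))
      0 (fun _ _ _ => ∅) (by intros; simp) (by simpa using hcon)
  exact hfree (cube_of_select G hε hG o w (stabilizer Γ o ⊔ stabilizer Γ w) le_sup_left le_sup_right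
    s p q r (Finset.mem_filter.1 hp).2 (Finset.mem_filter.1 hq).2 (Finset.mem_filter.1 hr).2
    (Finset.mem_filter.1 hp').2 (Finset.mem_filter.1 hq').2 (Finset.mem_filter.1 hr').2
    e1 e2 e3 e4 e5 e6 (Or.inl hw))

open scoped Classical in
/-- Bound inside one orbit. -/
theorem bd_same (hε : ε = 1 ∨ ε = -1)
    (hG : ∀ (g : Γ) (u v : V), G.Adj u v → G.Adj (g • u) (g ^ ε • v)) (hfree : ¬ cube ⊑ G)
    (o : V) :
    (Finset.univ.filter (fun γ : Γ => G.Adj o (γ • o))).card ^ 2
      ≤ 8 * Nat.card (stabilizer Γ o) * Fintype.card Γ := by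
  by_contra hcon
  push Not at hcon
  obtain ⟨s, p, q, r, hp, hq, hr, hp', hq', hr', e1, e2, e3, e4, e5, e6, e7⟩ :=
    select (stabilizer Γ o) (Finset.univ.filter (fun γ : Γ => G.Adj o (γ • o)))
      4 (fun s p q => {p * q, q * p⁻¹, p * q⁻¹, s * s * p⁻¹ * q⁻¹})
      (by intros; exact Finset.card_le_four) (by simpa using hcon)
  exact hfree (cube_of_select G hε hG o o (stabilizer Γ o) le_rfl le_rfl
    s p q r (Finset.mem_filter.1 hp).2 (Finset.mem_filter.1 hq).2 (Finset.mem_filter.1 hr).2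
    (Finset.mem_filter.1 hp').2 (Finset.mem_filter.1 hq').2 (Finset.mem_filter.1 hr').2
    e1 e2 e3 e4 e5 e6 (Or.inr ⟨rfl, e7 _ (by simp), e7 _ (by simp), e7 _ (by simp),
      e7 _ (by simp)⟩))

/-- If two different orbits are joined by an edge then the join of the stabilizers is not much
larger than both. -/
theorem sup_small (hε : ε = 1 ∨ ε = -1)
    (hG : ∀ (g : Γ) (u v : V), G.Adj u v → G.Adj (g • u) (g ^ ε • v)) (hfree : ¬ cube ⊑ G)
    (o w : V) (hw : w ∉ orbit Γ o) (a : Γ) (ha : G.Adj o (a • w)) :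
    Nat.card (stabilizer Γ o ⊔ stabilizer Γ w : Subgroup Γ) ≤ 3 * Nat.card (stabilizer Γ o) ∨
    Nat.card (stabilizer Γ o ⊔ stabilizer Γ w : Subgroup Γ) ≤ 3 * Nat.card (stabilizer Γ w) := by
  classical
  by_contra hcon
  push Not at hcon
  obtain ⟨h1, h2⟩ := hcon
  set L : Subgroup Γ := stabilizer Γ o ⊔ stabilizer Γ w with hL
  set X : Finset Γ := Finset.univ.filter (fun γ => γ ∈ L) with hX
  have hcard : X.card = Nat.card L := by
    rw [hX, Nat.card_eq_fintype_card, Fintype.card_subtype]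
  obtain ⟨x, hx, hx'⟩ := four (stabilizer Γ o) X (by rw [hcard]; exact h1)
  obtain ⟨y, hy, hy'⟩ := four (stabilizer Γ w) X (by rw [hcard]; exact h2)
  have hxL : ∀ i, x i ∈ L := fun i => (Finset.mem_filter.1 (hx i)).2
  have hyL : ∀ i, y i ∈ L := fun i => (Finset.mem_filter.1 (hy i)).2
  have hadj : ∀ i j, G.Adj ((x i) ^ ε • o) ((a * y j) • w) := by
    intro i j
    rw [adj_iff G hε hG]
    have h3 : (x i)⁻¹ * (a * y j) = a * ((x i)⁻¹ * y j) := by
      rw [← mul_assoc, mul_comm (x i)⁻¹ a, mul_assoc]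
    rw [h3]
    exact adj_mul G hε hG o w a _ (L.mul_mem (L.inv_mem (hxL i)) (hyL j)) ha
  apply hfree
  refine cube_of G (fun i => (x i) ^ ε • o) (fun j => (a * y j) • w) ?_ ?_ ?_
    (fun i j _ => hadj i j)
  · intro i j hij
    by_contra hne
    exact hx' i j hne (smul_eps_eq hε _ _ _ hij)
  · intro i j hij
    by_contra hne
    have hij' : (a * y i) • w = (a * y j) • w := hij
    rw [mul_smul, mul_smul] at hij'
    have h4 : y i • w = y j • w := smul_left_cancel a hij'
    apply hy' i j hne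
    rw [mem_stabilizer_iff, mul_smul, ← h4, inv_smul_smul]
  · intro i j hij
    apply hw
    have h5 : (a * y j) • w ∈ orbit Γ o := by
      rw [← hij]; exact mem_orbit _ _
    rw [mem_orbit_iff] at h5 ⊢
    obtain ⟨t, ht⟩ := h5
    exact ⟨(a * y j)⁻¹ * t, by rw [mul_smul, ht, inv_smul_smul]⟩

open scoped Classical in
/-- Passing from the group to the orbit. -/
theorem card_A [Fintype V] (o w : V) :
    (Finset.univ.filter (fun γ : Γ => G.Adj o (γ • w))).card
      = (Finset.univ.filter (fun u : V => G.Adj o u ∧ u ∈ orbit Γ w)).card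
        * Nat.card (stabilizer Γ w) := by
  have hmap : ∀ γ ∈ Finset.univ.filter (fun γ : Γ => G.Adj o (γ • w)),
      γ • w ∈ Finset.univ.filter (fun u : V => G.Adj o u ∧ u ∈ orbit Γ w) := by
    intro γ hγ
    rw [Finset.mem_filter] at hγ ⊢
    exact ⟨Finset.mem_univ _, hγ.2, mem_orbit _ _⟩
  rw [Finset.card_eq_sum_card_fiberwise hmap]
  rw [Finset.sum_const_nat (m := Nat.card (stabilizer Γ w))]
  intro u hu
  rw [Finset.mem_filter] at hu
  obtain ⟨-, hou, g0, hg0⟩ := hu
  have hg0' : g0 • w = u := hg0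
  rw [Nat.card_eq_fintype_card, ← Finset.card_univ]
  symm
  refine Finset.card_bij (fun (l : stabilizer Γ w) _ => g0 * (l : Γ)) ?_ ?_ ?_
  · intro l _
    have h1 : (g0 * (l : Γ)) • w = u := by
      rw [mul_smul, mem_stabilizer_iff.1 l.2, hg0']
    rw [Finset.mem_filter, Finset.mem_filter]
    exact ⟨⟨Finset.mem_univ _, by rw [h1]; exact hou⟩, h1⟩
  · intro l _ l' _ h
    exact Subtype.ext (mul_left_cancel h)
  · intro γ hγ
    rw [Finset.mem_filter] at hγ
    refine ⟨⟨g0⁻¹ * γ, ?_⟩, Finset.mem_univ _, by simp⟩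
    rw [mem_stabilizer_iff, mul_smul, hγ.2, ← hg0', inv_smul_smul]

open scoped Classical in
/-- The final degree bound. -/
theorem deg_bd [Fintype V] (hε : ε = 1 ∨ ε = -1)
    (hG : ∀ (g : Γ) (u v : V), G.Adj u v → G.Adj (g • u) (g ^ ε • v)) (hfree : ¬ cube ⊑ G)
    (o w : V) :
    (Finset.univ.filter (fun u : V => G.Adj o u ∧ u ∈ orbit Γ w)).card ^ 2
        * Nat.card (orbit Γ o)
      ≤ 12 * Nat.card (orbit Γ w) * max (Nat.card (orbit Γ o)) (Nat.card (orbit Γ w)) := by
  have hcs : ∀ v : V, Nat.card (orbit Γ v) * Nat.card (stabilizer Γ v) = Fintype.card Γ := by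
    intro v
    have := card_orbit_mul_card_stabilizer_eq_card_group Γ v
    rw [Nat.card_eq_fintype_card, Nat.card_eq_fintype_card]
    exact this
  have hsp : ∀ v : V, 0 < Nat.card (stabilizer Γ v) := fun v => Nat.card_pos
  set d := (Finset.univ.filter (fun u : V => G.Adj o u ∧ u ∈ orbit Γ w)).card with hd
  by_cases hw : w ∈ orbit Γ o
  · have horb : orbit Γ w = orbit Γ o := orbit_eq_iff.2 hw
    have hd' : d = (Finset.univ.filter (fun u : V => G.Adj o u ∧ u ∈ orbit Γ o)).card := by
      rw [hd, horb]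
    have h1 := bd_same G hε hG hfree o
    rw [card_A G o o, ← hd'] at h1
    rw [horb, max_self]
    have h2 := hcs o
    have h3 := hsp o
    set s := Nat.card (stabilizer Γ o)
    set b := Nat.card (orbit Γ o)
    rw [← h2] at h1
    have h4 : d ^ 2 * (s * s) ≤ (8 * b) * (s * s) := by
      calc d ^ 2 * (s * s) = (d * s) ^ 2 := by ring
        _ ≤ 8 * s * (b * s) := h1
        _ = (8 * b) * (s * s) := by ring
    have h5 : d ^ 2 ≤ 8 * b := Nat.le_of_mul_le_mul_right h4 (Nat.mul_pos h3 h3)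
    calc d ^ 2 * b ≤ 8 * b * b := Nat.mul_le_mul_right _ h5
      _ ≤ 12 * b * b := by gcongr; norm_num
  · by_cases hne : (Finset.univ.filter (fun γ : Γ => G.Adj o (γ • w))).Nonempty
    · obtain ⟨a, ha⟩ := hne
      have ha' := (Finset.mem_filter.1 ha).2
      have h1 := bd_diff G hε hG hfree o w hw
      rw [card_A G o w, ← hd] at h1
      have h2 := hcs o
      have h2' := hcs w
      have h3 := hsp o
      have h3' := hsp w
      have h6 := sup_small G hε hG hfree o w hw a ha'
      set s := Nat.card (stabilizer Γ o)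
      set t := Nat.card (stabilizer Γ w)
      set b := Nat.card (orbit Γ o)
      set c := Nat.card (orbit Γ w)
      set l := Nat.card (stabilizer Γ o ⊔ stabilizer Γ w : Subgroup Γ)
      rcases h6 with h6 | h6
      · have h7 : (d ^ 2 * b) * (t * t) ≤ (12 * c * c) * (t * t) := by
          calc (d ^ 2 * b) * (t * t) = (d * t) ^ 2 * b := by ring
            _ ≤ (4 * l * Fintype.card Γ) * b := Nat.mul_le_mul_right _ h1
            _ ≤ (4 * (3 * s) * Fintype.card Γ) * b := by gcongr
            _ = 12 * (b * s) * Fintype.card Γ := by ring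
            _ = 12 * (c * t) * (c * t) := by rw [h2, h2']
            _ = (12 * c * c) * (t * t) := by ring
        have h8 := Nat.le_of_mul_le_mul_right h7 (Nat.mul_pos h3' h3')
        exact h8.trans (Nat.mul_le_mul_left _ (le_max_right _ _))
      · have h7 : (d ^ 2) * (t * t) ≤ (12 * c) * (t * t) := by
          calc (d ^ 2) * (t * t) = (d * t) ^ 2 := by ring
            _ ≤ (4 * l * Fintype.card Γ) := h1
            _ ≤ (4 * (3 * t) * Fintype.card Γ) := by gcongr
            _ = 4 * (3 * t) * (c * t) := by rw [h2']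
            _ = (12 * c) * (t * t) := by ring
        have h8 := Nat.le_of_mul_le_mul_right h7 (Nat.mul_pos h3' h3')
        exact (Nat.mul_le_mul_right _ h8).trans (Nat.mul_le_mul_left _ (le_max_left _ _))
    · rw [Finset.not_nonempty_iff_eq_empty] at hne
      have h1 := card_A G (Γ := Γ) o w
      rw [hne, Finset.card_empty, ← hd] at h1
      have h2 : d = 0 := by
        rcases Nat.mul_eq_zero.1 h1.symm with h | h
        · exact h
        · exact absurd h (hsp w).ne'
      rw [h2]
      simp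

end H2Q
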