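import Mathlib

/-!
# The cube graph and its bipartite description
-/

set_option autoImplicit false

namespace H2Q

open SimpleGraph

/-- The graph of the three dimensional cube (called `Q_8` in the problem): vertices are the 0-1
vectors of length three, adjacent when they differ in exactly one coordinate. -/
def cube : SimpleGraph (Fin 3 → Bool) where
  Adj x y := hammingDist x y = 1
  symm := ⟨fun x y h => by rw [hammingDist_comm]; exact h⟩
  loopless := ⟨fun x h => by simp at h⟩

/-- parity of a vertex of the cube -/
private def par (x : Fin 3 → Bool) : Bool := xor (x 0) (xor (x 1) (x 2))

/-- index of the antipodal pair of a vertex of the cube -/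
private def idx (x : Fin 3 → Bool) : Fin 4 :=
  match xor (x 0) (par x), xor (x 1) (par x) with
  | false, false => 0
  | false, true => 1
  | true, false => 2
  | true, true => 3

private lemma key : ∀ x y : Fin 3 → Bool, hammingDist x y = 1 →
    (par x ≠ par y ∧ idx x ≠ idx y) := by
  decide

private lemma inj : ∀ x y : Fin 3 → Bool, par x = par y → idx x = idx y → x = y := by
  decide

/-- Four vertices `X i`, four vertices `Y i` with `X i` adjacent to `Y j` for `i ≠ j`
form a cube. -/
theorem cube_of {V : Type*} (G : SimpleGraph V) (X Y : Fin 4 → V)
    (hX : Function.Injective X) (hY : Function.Injective Y) (hXY : ∀ i j, X i ≠ Y j)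
    (hadj : ∀ i j, i ≠ j → G.Adj (X i) (Y j)) : cube ⊑ G := by
  refine ⟨⟨⟨fun x => if par x then X (idx x) else Y (idx x), ?_⟩, ?_⟩⟩
  · intro x y h
    have h1 := key x y h
    by_cases hx : par x = true
    · have hy : par y = false := by
        cases hpy : par y
        · rfl
        · exact absurd (hx.trans hpy.symm) h1.1
      simp only [hx, hy, if_true]
      simpa using hadj _ _ h1.2
    · have hx' : par x = false := by simpa using hx
      have hy : par y = true := by
        cases hpy : par y
        · exact absurd (hx'.trans hpy.symm) h1.1
        · rfl
      simp only [hx', hy]
      simpa using (hadj _ _ (Ne.symm h1.2)).symm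
  · intro x y h
    change (if par x then X (idx x) else Y (idx x)) = (if par y then X (idx y) else Y (idx y)) at h
    by_cases hx : par x = true
    · by_cases hy : par y = true
      · simp only [hx, hy, if_true] at h
        exact inj x y (hx.trans hy.symm) (hX h)
      · simp only [hx, if_true] at h
        have hy' : par y = false := by simpa using hy
        simp only [hy'] at h
        exact absurd (by simpa using h) (hXY _ _)
    · have hx' : par x = false := by simpa using hx
      by_cases hy : par y = true
      · simp only [hx', hy, if_true] at h
        exact absurd (by simpa using h.symm) (hXY _ _)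
      · have hy' : par y = false := by simpa using hy
        simp only [hx', hy'] at h
        exact inj x y (hx'.trans hy'.symm) (hY (by simpa using h))

end H2Q
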