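import Pool.Agent.H2Q.Bd

/-!
# The number of edges of a cube-free graph with an abelian group of symmetries
-/

set_option autoImplicit false

namespace H2Q

open SimpleGraph MulAction

/-- Counting: from the degree bound to the edge bound. -/
theorem count {V Q : Type*} [Fintype V] [Fintype Q] [DecidableEq Q] (G : SimpleGraph V)
    [DecidableRel G.Adj] (π : V → Q)
    (h : ∀ (v : V) (q : Q),
      (Finset.univ.filter (fun u : V => G.Adj v u ∧ π u = q)).card ^ 2
        * (Finset.univ.filter (fun u : V => π u = π v)).card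
      ≤ 12 * (Finset.univ.filter (fun u : V => π u = q)).card
        * max (Finset.univ.filter (fun u : V => π u = π v)).card
          (Finset.univ.filter (fun u : V => π u = q)).card) :
    G.edgeFinset.card ^ 2 ≤ 6 * Fintype.card Q * Fintype.card V ^ 3 := by
  classical
  set a : Q → ℕ := fun q => (Finset.univ.filter (fun u : V => π u = q)).card with ha
  set D : V → Q → ℕ := fun v q => (Finset.univ.filter (fun u : V => G.Adj v u ∧ π u = q)).card
    with hD
  have hsum : ∑ q, a q = Fintype.card V := by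
    rw [← Finset.card_univ (α := V)]
    exact (Finset.card_eq_sum_card_fiberwise (s := (Finset.univ : Finset V))
      (t := (Finset.univ : Finset Q)) (f := π) (fun _ _ => Finset.mem_univ _)).symm
  have hdeg : ∀ v, G.degree v = ∑ q, D v q := by
    intro v
    rw [← G.card_neighborFinset_eq_degree, Finset.card_eq_sum_card_fiberwise
      (s := G.neighborFinset v) (t := (Finset.univ : Finset Q)) (f := π)
      (fun _ _ => Finset.mem_univ _)]
    refine Finset.sum_congr rfl (fun q _ => ?_)
    rw [hD]
    congr 1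
    ext u
    simp [mem_neighborFinset]
  set E : Q → Q → ℕ := fun q' q => ∑ v ∈ Finset.univ.filter (fun v : V => π v = q'), D v q with hE
  have htot : 2 * G.edgeFinset.card = ∑ x : Q × Q, E x.1 x.2 := by
    rw [← G.sum_degrees_eq_twice_card_edges, Finset.sum_congr rfl (fun v _ => hdeg v),
      ← Finset.sum_fiberwise_of_maps_to (s := (Finset.univ : Finset V))
        (t := (Finset.univ : Finset Q)) (g := π) (fun _ _ => Finset.mem_univ _),
      Fintype.sum_prod_type]
    refine Finset.sum_congr rfl (fun q' _ => ?_)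
    rw [Finset.sum_comm]
  have hEb : ∀ x : Q × Q, E x.1 x.2 ^ 2 ≤ (12 * (a x.1 * a x.2)) * max (a x.1) (a x.2) := by
    rintro ⟨q', q⟩
    change E q' q ^ 2 ≤ (12 * (a q' * a q)) * max (a q') (a q)
    have h1 : E q' q ^ 2 ≤ a q' * ∑ v ∈ Finset.univ.filter (fun v : V => π v = q'), D v q ^ 2 :=
      sq_sum_le_card_mul_sum_sq
    refine h1.trans ?_
    rw [Finset.mul_sum]
    have h2 : ∀ v ∈ Finset.univ.filter (fun v : V => π v = q'),
        a q' * D v q ^ 2 ≤ 12 * a q * max (a q') (a q) := by
      intro v hv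
      have hv' := (Finset.mem_filter.1 hv).2
      have h3 := h v q
      rw [hv'] at h3
      rw [mul_comm]
      exact h3
    refine (Finset.sum_le_card_nsmul _ _ _ h2).trans ?_
    rw [smul_eq_mul]
    apply le_of_eq
    change a q' * _ = _
    ring
  have hCS := Finset.sum_sq_le_sum_mul_sum_of_sq_le_mul (Finset.univ : Finset (Q × Q))
    (r := fun x => E x.1 x.2) (f := fun x => 12 * (a x.1 * a x.2))
    (g := fun x => max (a x.1) (a x.2)) (fun _ _ => Nat.zero_le _) (fun _ _ => Nat.zero_le _)
    (fun x _ => hEb x)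
  rw [← htot] at hCS
  have hF : ∑ x : Q × Q, 12 * (a x.1 * a x.2) = 12 * Fintype.card V ^ 2 := by
    rw [← Finset.mul_sum, Fintype.sum_prod_type]
    congr 1
    rw [← hsum, sq, Finset.sum_mul_sum]
  have hM : ∑ x : Q × Q, max (a x.1) (a x.2) ≤ 2 * Fintype.card Q * Fintype.card V := by
    have h1 : ∑ x : Q × Q, max (a x.1) (a x.2) ≤ ∑ x : Q × Q, (a x.1 + a x.2) := by
      refine Finset.sum_le_sum (fun x _ => ?_)
      exact max_le (Nat.le_add_right _ _) (Nat.le_add_left _ _)
    refine h1.trans (le_of_eq ?_)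
    rw [Finset.sum_add_distrib, Fintype.sum_prod_type, Fintype.sum_prod_type]
    simp only [Finset.sum_const, Finset.card_univ, smul_eq_mul]
    rw [← Finset.mul_sum, hsum]
    ring
  rw [hF] at hCS
  have h3 : (2 * G.edgeFinset.card) ^ 2
      ≤ 12 * Fintype.card V ^ 2 * (2 * Fintype.card Q * Fintype.card V) :=
    hCS.trans (Nat.mul_le_mul_left _ hM)
  have h4 : 4 * G.edgeFinset.card ^ 2 ≤ 4 * (6 * Fintype.card Q * Fintype.card V ^ 3) := by
    calc 4 * G.edgeFinset.card ^ 2 = (2 * G.edgeFinset.card) ^ 2 := by ring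
      _ ≤ _ := h3
      _ = _ := by ring
  exact Nat.le_of_mul_le_mul_left h4 (by norm_num)

/-- **Main bound.** -/
theorem main {V : Type*} [Finite V] (G : SimpleGraph V) {Γ : Type*} [CommGroup Γ] [Finite Γ]
    [MulAction Γ V] (ε : ℤ) (hε : ε = 1 ∨ ε = -1)
    (hG : ∀ (g : Γ) (u v : V), G.Adj u v → G.Adj (g • u) (g ^ ε • v)) (hfree : ¬ cube ⊑ G) :
    Nat.card G.edgeSet ^ 2 ≤ 6 * Nat.card (orbitRel.Quotient Γ V) * Nat.card V ^ 3 := by
  classical
  have : Fintype V := Fintype.ofFinite V
  have : Fintype Γ := Fintype.ofFinite Γ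
  have : Finite (orbitRel.Quotient Γ V) :=
    Finite.of_surjective (fun v : V => (Quotient.mk'' v : orbitRel.Quotient Γ V))
      Quotient.mk''_surjective
  have : Fintype (orbitRel.Quotient Γ V) := Fintype.ofFinite _
  have hπ : ∀ u v : V, (Quotient.mk'' u : orbitRel.Quotient Γ V) = Quotient.mk'' v ↔
      u ∈ orbit Γ v := by
    intro u v
    rw [Quotient.eq'']
    exact orbitRel_apply
  have hcardO : ∀ v : V, (Finset.univ.filter
      (fun u : V => (Quotient.mk'' u : orbitRel.Quotient Γ V) = Quotient.mk'' v)).card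
      = Nat.card (orbit Γ v) := by
    intro v
    rw [Nat.card_eq_fintype_card, ← Set.toFinset_card]
    congr 1
    ext u
    rw [Finset.mem_filter, Set.mem_toFinset, hπ]
    simp
  have h1 := count G (fun v : V => (Quotient.mk'' v : orbitRel.Quotient Γ V)) (by
    intro v q
    obtain ⟨w, rfl⟩ := Quotient.mk''_surjective q
    rw [hcardO, hcardO]
    have h2 := deg_bd G hε hG hfree v w
    have h3 : (Finset.univ.filter (fun u : V => G.Adj v u ∧
        (Quotient.mk'' u : orbitRel.Quotient Γ V) = Quotient.mk'' w)).card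
        = (Finset.univ.filter (fun u : V => G.Adj v u ∧ u ∈ orbit Γ w)).card := by
      congr 1
      ext u
      rw [Finset.mem_filter, Finset.mem_filter, hπ]
    rw [h3]
    convert h2)
  rw [Nat.card_eq_fintype_card, Nat.card_eq_fintype_card, Nat.card_eq_fintype_card,
    ← edgeFinset_card]
  exact h1

end H2Q
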