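import Mathlib

/-!
# Selecting three pairs with the same product
-/

set_option autoImplicit false

namespace H2Q

variable {Γ : Type*} [CommGroup Γ] [Fintype Γ]

/-- An element of `X` outside finitely many cosets. -/
theorem avoid (H : Subgroup Γ) (X C : Finset Γ) (h : C.card * Nat.card H < X.card) :
    ∃ x ∈ X, ∀ c ∈ C, c⁻¹ * x ∉ H := by
  classical
  by_contra hcon
  push Not at hcon
  have hsub : X ⊆ C.biUnion (fun c => (Finset.univ : Finset H).image (fun l : H => c * (l : Γ))) := by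
    intro x hx
    obtain ⟨c, hc, hxc⟩ := hcon x hx
    rw [Finset.mem_biUnion]
    refine ⟨c, hc, ?_⟩
    rw [Finset.mem_image]
    exact ⟨⟨c⁻¹ * x, hxc⟩, Finset.mem_univ _, by simp⟩
  have h1 := Finset.card_le_card hsub
  have h2 : (C.biUnion (fun c => (Finset.univ : Finset H).image (fun l : H => c * (l : Γ)))).card
      ≤ C.card * Nat.card H := by
    refine Finset.card_biUnion_le_card_mul _ _ _ ?_
    intro c _
    refine Finset.card_image_le.trans ?_
    rw [Finset.card_univ, Nat.card_eq_fintype_card]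
  omega

/-- Four elements of `X` in different cosets of `H`. -/
theorem four (H : Subgroup Γ) (X : Finset Γ) (h : 3 * Nat.card H < X.card) :
    ∃ x : Fin 4 → Γ, (∀ i, x i ∈ X) ∧ ∀ i j, i ≠ j → (x i)⁻¹ * x j ∉ H := by
  classical
  have hpos : 0 < Nat.card H := Nat.card_pos
  obtain ⟨a, ha, -⟩ := avoid H X ∅ (by rw [Finset.card_empty, zero_mul]; omega)
  obtain ⟨b, hb, hb'⟩ := avoid H X {a} (by
    rw [Finset.card_singleton, one_mul]; omega)
  obtain ⟨c, hc, hc'⟩ := avoid H X {a, b} (by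
    have := Finset.card_le_two (a := a) (b := b)
    have h2 := Nat.mul_le_mul_right (Nat.card H) this
    omega)
  obtain ⟨d, hd, hd'⟩ := avoid H X {a, b, c} (by
    have := Finset.card_le_three (a := a) (b := b) (c := c)
    have h2 := Nat.mul_le_mul_right (Nat.card H) this
    omega)
  have hab := hb' a (by simp)
  have hac := hc' a (by simp)
  have hbc := hc' b (by simp)
  have had := hd' a (by simp)
  have hbd := hd' b (by simp)
  have hcd := hd' c (by simp)
  have inv : ∀ {u v : Γ}, u⁻¹ * v ∉ H → v⁻¹ * u ∉ H := by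
    intro u v huv hvu
    apply huv
    have := H.inv_mem hvu
    simpa [mul_inv_rev] using this
  refine ⟨![a, b, c, d], ?_, ?_⟩
  · intro i
    fin_cases i <;> simp [ha, hb, hc, hd]
  · intro i j hij
    fin_cases i <;> fin_cases j <;>
      first
      | exact absurd rfl hij
      | assumption
      | exact inv (by assumption)

/-- **Pigeonhole.** A large set has an element with many representations as a product. -/
theorem exists_pop (A : Finset Γ) (c : ℕ) [DecidableEq Γ] (h : c * Fintype.card Γ < A.card ^ 2) :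
    ∃ s : Γ, c < (A.filter (fun x => s * x⁻¹ ∈ A)).card := by
  by_contra hcon
  push Not at hcon
  have h1 : ∑ s : Γ, (A.filter (fun x => s * x⁻¹ ∈ A)).card = A.card ^ 2 := by
    have h2 : ∀ s : Γ, (A.filter (fun x => s * x⁻¹ ∈ A)).card
        = ∑ x ∈ A, (if s * x⁻¹ ∈ A then 1 else 0) := by
      intro s
      rw [Finset.card_filter]
    rw [Finset.sum_congr rfl (fun s _ => h2 s), Finset.sum_comm]
    have h3 : ∀ x ∈ A, ∑ s : Γ, (if s * x⁻¹ ∈ A then 1 else 0) = A.card := by
      intro x _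
      rw [← Finset.card_filter]
      refine Finset.card_bij (fun s _ => s * x⁻¹) ?_ ?_ ?_
      · intro s hs
        simpa using hs
      · intro s _ t _ hst
        exact mul_right_cancel hst
      · intro y hy
        exact ⟨y * x, by simpa using hy, by simp⟩
    rw [Finset.sum_congr rfl h3, Finset.sum_const, smul_eq_mul, sq]
  have h4 : ∑ s : Γ, (A.filter (fun x => s * x⁻¹ ∈ A)).card ≤ ∑ _s : Γ, c :=
    Finset.sum_le_sum (fun s _ => hcon s)
  rw [h1, Finset.sum_const, Finset.card_univ, smul_eq_mul] at h4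
  have h5 : Fintype.card Γ * c = c * Fintype.card Γ := mul_comm _ _
  omega

/-- **Selection.** Three elements `p`, `q`, `r` of `A` whose complements `s p⁻¹`, `s q⁻¹`,
`s r⁻¹` are in `A`, in sufficiently general position modulo `H`; `E s p q` is an additional finite
set of forbidden cosets for `r`. -/
theorem select (H : Subgroup Γ) (A : Finset Γ) [DecidableEq Γ] (n : ℕ)
    (E : Γ → Γ → Γ → Finset Γ) (hE : ∀ s p q, (E s p q).card ≤ n)
    (h : (4 + n) * Nat.card H * Fintype.card Γ < A.card ^ 2) :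
    ∃ s p q r : Γ, p ∈ A ∧ q ∈ A ∧ r ∈ A ∧ s * p⁻¹ ∈ A ∧ s * q⁻¹ ∈ A ∧ s * r⁻¹ ∈ A ∧
      p⁻¹ * q ∉ H ∧ (s * p⁻¹)⁻¹ * q ∉ H ∧ p⁻¹ * r ∉ H ∧ (s * p⁻¹)⁻¹ * r ∉ H ∧
      q⁻¹ * r ∉ H ∧ (s * q⁻¹)⁻¹ * r ∉ H ∧ ∀ c ∈ E s p q, c⁻¹ * r ∉ H := by
  obtain ⟨s, hs⟩ := exists_pop A ((4 + n) * Nat.card H) h
  set X := A.filter (fun x => s * x⁻¹ ∈ A) with hX
  have hpos : 0 < Nat.card H := Nat.card_pos
  have hmono : ∀ m : ℕ, m ≤ 4 + n → m * Nat.card H < X.card := by
    intro m hm
    exact lt_of_le_of_lt (Nat.mul_le_mul_right _ hm) hs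
  obtain ⟨p, hp, -⟩ := avoid H X ∅ (by rw [Finset.card_empty]; exact hmono 0 (by omega))
  obtain ⟨q, hq, hq'⟩ := avoid H X {p, s * p⁻¹}
    (lt_of_le_of_lt (Nat.mul_le_mul_right _ Finset.card_le_two) (hmono 2 (by omega)))
  obtain ⟨r, hr, hr'⟩ := avoid H X (({p, s * p⁻¹, q, s * q⁻¹} : Finset Γ) ∪ E s p q) (by
    refine lt_of_le_of_lt (Nat.mul_le_mul_right _ ?_) (hmono (4 + n) le_rfl)
    refine (Finset.card_union_le _ _).trans ?_
    have h4 : ({p, s * p⁻¹, q, s * q⁻¹} : Finset Γ).card ≤ 4 := Finset.card_le_four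
    have := hE s p q
    omega)
  rw [hX, Finset.mem_filter] at hp hq hr
  refine ⟨s, p, q, r, hp.1, hq.1, hr.1, hp.2, hq.2, hr.2, hq' p (by simp), hq' _ (by simp),
    hr' p (by simp), hr' _ (by simp), hr' q (by simp), hr' _ (by simp), ?_⟩
  intro c hc
  exact hr' c (Finset.mem_union_right _ hc)

end H2Q
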