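import Pool.Agent.H2Q.Cube
import Pool.Agent.H2Q.Sel

/-!
# Cubes in graphs with an abelian group of symmetries
-/

set_option autoImplicit false

namespace H2Q

open SimpleGraph MulAction

variable {V : Type*} (G : SimpleGraph V) {Γ : Type*} [CommGroup Γ] [MulAction Γ V] {ε : ℤ}

theorem zz (hε : ε = 1 ∨ ε = -1) (g : Γ) : (g ^ ε) ^ ε = g := by
  rcases hε with rfl | rfl <;> simp

theorem adj_iff (hε : ε = 1 ∨ ε = -1)
    (hG : ∀ (g : Γ) (u v : V), G.Adj u v → G.Adj (g • u) (g ^ ε • v)) (x y : Γ) (o w : V) :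
    G.Adj (x ^ ε • o) (y • w) ↔ G.Adj o ((x⁻¹ * y) • w) := by
  constructor
  · intro h
    have := hG (x ^ ε)⁻¹ _ _ h
    rw [inv_smul_smul, inv_zpow, zz hε, ← mul_smul] at this
    exact this
  · intro h
    have := hG (x ^ ε) _ _ h
    rw [zz hε, ← mul_smul, mul_inv_cancel_left] at this
    exact this

theorem adj_mul (hε : ε = 1 ∨ ε = -1)
    (hG : ∀ (g : Γ) (u v : V), G.Adj u v → G.Adj (g • u) (g ^ ε • v)) (o w : V) (a l : Γ)
    (hl : l ∈ stabilizer Γ o ⊔ stabilizer Γ w) (h : G.Adj o (a • w)) :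
    G.Adj o ((a * l) • w) := by
  obtain ⟨y, hy, z, hz, rfl⟩ := Subgroup.mem_sup.1 hl
  have hy' : y ^ ε ∈ stabilizer Γ o := Subgroup.zpow_mem _ hy _
  have h1 := hG (y ^ ε) _ _ h
  rw [mem_stabilizer_iff.1 hy', zz hε] at h1
  have h2 : (a * (y * z)) • w = y • a • w := by
    rw [← mul_assoc, mul_comm a y, mul_smul, mul_smul, mem_stabilizer_iff.1 hz]
  rw [h2]
  exact h1

theorem smul_eps_eq (hε : ε = 1 ∨ ε = -1) (x y : Γ) (o : V) (h : x ^ ε • o = y ^ ε • o) :
    x⁻¹ * y ∈ stabilizer Γ o := by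
  have h1 : ((x⁻¹ * y) ^ ε) ∈ stabilizer Γ o := by
    rw [mem_stabilizer_iff, mul_zpow, inv_zpow, mul_smul, ← h, inv_smul_smul]
  have h2 := Subgroup.zpow_mem _ h1 ε
  rwa [zz hε] at h2

private lemma four_cases (P : Fin 4 → Fin 4 → Prop) (hs : ∀ i j, P i j → P j i)
    (h01 : P 0 1) (h02 : P 0 2) (h03 : P 0 3) (h12 : P 1 2) (h13 : P 1 3) (h23 : P 2 3) :
    ∀ i j, i ≠ j → P i j := by
  intro i j hij
  fin_cases i <;> fin_cases j <;>
    first
    | exact absurd rfl hij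
    | assumption
    | exact hs _ _ (by assumption)

/-- The cube built from three pairs with the same product. -/
theorem cube_of_select (hε : ε = 1 ∨ ε = -1)
    (hG : ∀ (g : Γ) (u v : V), G.Adj u v → G.Adj (g • u) (g ^ ε • v)) (o w : V)
    (L : Subgroup Γ) (hLo : stabilizer Γ o ≤ L) (hLw : stabilizer Γ w ≤ L)
    (s p q r : Γ)
    (h12 : G.Adj o (p • w)) (h13 : G.Adj o (q • w)) (h23 : G.Adj o (r • w))
    (h34 : G.Adj o ((s * p⁻¹) • w)) (h24 : G.Adj o ((s * q⁻¹) • w))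
    (h14 : G.Adj o ((s * r⁻¹) • w))
    (e1 : p⁻¹ * q ∉ L) (e2 : (s * p⁻¹)⁻¹ * q ∉ L) (e3 : p⁻¹ * r ∉ L) (e4 : (s * p⁻¹)⁻¹ * r ∉ L)
    (e5 : q⁻¹ * r ∉ L) (e6 : (s * q⁻¹)⁻¹ * r ∉ L)
    (hcase : w ∉ orbit Γ o ∨ (w = o ∧ (p * q)⁻¹ * r ∉ L ∧ (q * p⁻¹)⁻¹ * r ∉ L ∧
      (p * q⁻¹)⁻¹ * r ∉ L ∧ (s * s * p⁻¹ * q⁻¹)⁻¹ * r ∉ L)) : cube ⊑ G := by
  have inv : ∀ {u v : Γ}, u⁻¹ * v ∉ L → v⁻¹ * u ∉ L := by
    intro u v huv hvu
    apply huv
    have := L.inv_mem hvu
    simpa [mul_inv_rev] using this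
  have hcast : ∀ {u v : Γ}, Additive.ofMul u = Additive.ofMul v → u = v := fun h => h
  have hmem : ∀ {u v : Γ}, u = v → u ∉ L → v ∉ L := by
    intro u v h hu; rwa [h] at hu
  have hadjc : ∀ {u v : Γ}, u = v → G.Adj o (u • w) → G.Adj o (v • w) := by
    intro u v h hu; rwa [h] at hu
  set x : Fin 4 → Γ := ![1, q * r⁻¹, p * r⁻¹, p * q * s⁻¹] with hx
  set z : Γ := p * q * r⁻¹ with hz
  have x0 : x 0 = 1 := rfl
  have x1 : x 1 = q * r⁻¹ := rfl
  have x2 : x 2 = p * r⁻¹ := rfl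
  have x3 : x 3 = p * q * s⁻¹ := rfl
  have hdist : ∀ i j, i ≠ j → (x i)⁻¹ * x j ∉ L := by
    apply four_cases (fun i j => (x i)⁻¹ * x j ∉ L)
    · intro i j h; exact inv h
    · refine hmem (hcast ?_) (inv e5)
      rw [x0, x1]; simp only [ofMul_mul, ofMul_inv, ofMul_one]; abel
    · refine hmem (hcast ?_) (inv e3)
      rw [x0, x2]; simp only [ofMul_mul, ofMul_inv, ofMul_one]; abel
    · refine hmem (hcast ?_) e2
      rw [x0, x3]; simp only [ofMul_mul, ofMul_inv, ofMul_one]; abel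
    · refine hmem (hcast ?_) (inv e1)
      rw [x1, x2]; simp only [ofMul_mul, ofMul_inv]; abel
    · refine hmem (hcast ?_) e4
      rw [x1, x3]; simp only [ofMul_mul, ofMul_inv]; abel
    · refine hmem (hcast ?_) e6
      rw [x2, x3]; simp only [ofMul_mul, ofMul_inv]; abel
  have hadj : ∀ i j, i ≠ j → G.Adj o (((x i)⁻¹ * (z * (x j)⁻¹)) • w) := by
    apply four_cases (fun i j => G.Adj o (((x i)⁻¹ * (z * (x j)⁻¹)) • w))
    · intro i j h
      refine hadjc (hcast ?_) h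
      simp only [ofMul_mul, ofMul_inv]; abel
    · refine hadjc (hcast ?_) h12
      rw [x0, x1, hz]; simp only [ofMul_mul, ofMul_inv, ofMul_one]; abel
    · refine hadjc (hcast ?_) h13
      rw [x0, x2, hz]; simp only [ofMul_mul, ofMul_inv, ofMul_one]; abel
    · refine hadjc (hcast ?_) h14
      rw [x0, x3, hz]; simp only [ofMul_mul, ofMul_inv, ofMul_one]; abel
    · refine hadjc (hcast ?_) h23
      rw [x1, x2, hz]; simp only [ofMul_mul, ofMul_inv]; abel
    · refine hadjc (hcast ?_) h24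
      rw [x1, x3, hz]; simp only [ofMul_mul, ofMul_inv]; abel
    · refine hadjc (hcast ?_) h34
      rw [x2, x3, hz]; simp only [ofMul_mul, ofMul_inv]; abel
  have hadj' : ∀ i j, i ≠ j → G.Adj ((x i) ^ ε • o) ((z * (x j)⁻¹) • w) := by
    intro i j hij
    rw [adj_iff G hε hG]
    exact hadj i j hij
  refine cube_of G (fun i => (x i) ^ ε • o) (fun j => (z * (x j)⁻¹) • w) ?_ ?_ ?_ hadj'
  · intro i j hij
    by_contra hne
    exact hdist i j hne (hLo (smul_eps_eq hε _ _ _ hij))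
  · intro i j hij
    by_contra hne
    have hij' : (z * (x i)⁻¹) • w = (z * (x j)⁻¹) • w := hij
    have h1 : (z * (x j)⁻¹)⁻¹ * (z * (x i)⁻¹) ∈ stabilizer Γ w := by
      rw [mem_stabilizer_iff, mul_smul, hij', inv_smul_smul]
    have h2 := hLw h1
    refine hmem (hcast ?_) (hdist i j hne) h2
    simp only [ofMul_mul, ofMul_inv]; abel
  · intro i j hij
    rcases hcase with hw | ⟨hw, f1, f2, f3, f4⟩
    · apply hw
      have h1 : (z * (x j)⁻¹) • w ∈ orbit Γ o := by
        rw [← hij]; exact mem_orbit _ _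
      rw [mem_orbit_iff] at h1 ⊢
      obtain ⟨t, ht⟩ := h1
      exact ⟨(z * (x j)⁻¹)⁻¹ * t, by rw [mul_smul, ht, inv_smul_smul]⟩
    · by_cases hne : i = j
      · subst hne
        rw [hw] at hij
        have hz0 : z⁻¹ ∉ L := by
          refine hmem (hcast ?_) f1
          rw [hz]; simp only [ofMul_mul, ofMul_inv]; abel
        have h1 : ((x i) ^ ε)⁻¹ * (z * (x i)⁻¹) ∈ L := by
          apply hLo
          rw [mem_stabilizer_iff, mul_smul, ← hij, inv_smul_smul]
        rcases hε with rfl | rfl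
        · rw [zpow_one] at h1
          have hf : (x i)⁻¹ * (z * (x i)⁻¹) ∉ L := by
            fin_cases i
            · refine hmem (hcast ?_) (fun h => hz0 (L.inv_mem h) : z ∉ L)
              change _ = Additive.ofMul ((x 0)⁻¹ * (z * (x 0)⁻¹))
              rw [x0]; simp only [ofMul_mul, ofMul_inv, ofMul_one]; abel
            · refine hmem (hcast ?_) f2
              change _ = Additive.ofMul ((x 1)⁻¹ * (z * (x 1)⁻¹))
              rw [x1, hz]; simp only [ofMul_mul, ofMul_inv]; abel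
            · refine hmem (hcast ?_) f3
              change _ = Additive.ofMul ((x 2)⁻¹ * (z * (x 2)⁻¹))
              rw [x2, hz]; simp only [ofMul_mul, ofMul_inv]; abel
            · refine hmem (hcast ?_) (fun h => f4 (by simpa using L.inv_mem h) :
                ((s * s * p⁻¹ * q⁻¹)⁻¹ * r)⁻¹ ∉ L)
              change _ = Additive.ofMul ((x 3)⁻¹ * (z * (x 3)⁻¹))
              rw [x3, hz]; simp only [ofMul_mul, ofMul_inv]; abel
          exact hf h1
        · apply hz0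
          apply L.inv_mem
          have h2 : ((x i) ^ (-1 : ℤ))⁻¹ * (z * (x i)⁻¹) = z := by
            rw [zpow_neg_one, inv_inv]
            refine hcast ?_
            simp only [ofMul_mul, ofMul_inv]; abel
          rwa [h2] at h1
      · exact (hadj' i j hne).ne hij

end H2Q
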